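import Pool.Agent.H.MP_324c12_gt.C

namespace Pool.Agent.Results.MP_324c12_gt.Yes

open Set

/-- Intrinsic distance in `S`: infimum of the lengths of continuous curves in `S`. -/
noncomputable def idist (S : Set (EuclideanSpace ℝ (Fin 3))) (x y : EuclideanSpace ℝ (Fin 3)) :
    ENNReal :=
  ⨅ (γ : ℝ → EuclideanSpace ℝ (Fin 3))
    (_ : ContinuousOn γ (Icc 0 1) ∧ γ 0 = x ∧ γ 1 = y ∧ ∀ t ∈ Icc (0 : ℝ) 1, γ t ∈ S),
    eVariationOn γ (Icc 0 1)

/-- The set of antipodes (intrinsically farthest points) of `p` in `S`. -/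
def antipodes (S : Set (EuclideanSpace ℝ (Fin 3))) (p : EuclideanSpace ℝ (Fin 3)) :
    Set (EuclideanSpace ℝ (Fin 3)) :=
  {q ∈ S | ∀ z ∈ S, idist S p z ≤ idist S p q}

/-- Rotation by the angle `t` about the line through `o` with unit direction `w` (Rodrigues). -/
noncomputable def rot (o w : EuclideanSpace ℝ (Fin 3)) (t : ℝ) (x : EuclideanSpace ℝ (Fin 3)) :
    EuclideanSpace ℝ (Fin 3) :=
  o + Real.cos t • (x - o) + Real.sin t • WithLp.toLp 2 (crossProduct w.ofLp (x - o).ofLp) +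
    ((1 - Real.cos t) * inner ℝ w (x - o)) • w

theorem result : ∃ K : Set (EuclideanSpace ℝ (Fin 3)),
    IsCompact K ∧ Convex ℝ K ∧ (interior K).Nonempty ∧
    (∃ F : EuclideanSpace ℝ (Fin 3) → EuclideanSpace ℝ (Fin 3), ∀ p ∈ frontier K,
      antipodes (frontier K) p = {F p} ∧ F (F p) = p) ∧
    ∀ o w : EuclideanSpace ℝ (Fin 3), ‖w‖ = 1 → ∃ t : ℝ, rot o w t '' frontier K ≠ frontier K := by
  refine ⟨H.MP_324c12_gt.K, H.MP_324c12_gt.K_compact, H.MP_324c12_gt.K_convex,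
    H.MP_324c12_gt.int_ne, ?_⟩
  rw [H.MP_324c12_gt.frontier_K]
  exact ⟨H.MP_324c12_gt.steinhaus, H.MP_324c12_gt.not_rev⟩

end Pool.Agent.Results.MP_324c12_gt.Yes
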